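import Pool.Agent.Helper12.LR.Dens
import Pool.Agent.Helper12.LR.Chars

/-!
MP_274814_nt: the inequality of Q1 (for the primitive Gamma values, as posed) fails for almost all
`q`, with a deficiency larger than any given `K`.

If a prime `p ∣ q` is such that `q` has many prime factors `l ≡ -1 mod 8 p`, then many odd
characters modulo the `p`-free part of `q` take the value `1` at `p`, and each of them is a relation
between the primitive Gamma values of level `q`.  By Dirichlet's theorem in the form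
`∑ 1 / l = ∞`, almost all `q` have this property.
-/

set_option autoImplicit false

namespace Pool.Agent.Results.MP_274814_nt.AlmostAllLevels

open Pool.Agent.Helper24.LRDefs Filter Topology

/-- For every `K` the set of all `q` for which `tr.deg F_q ≤ 1 + φ(q)/2 - K` fails has natural
density zero. -/
theorem result : ∀ K : ℕ,
    Tendsto (fun N : ℕ =>
      (({q : ℕ | q < N ∧ ¬ (Algebra.trdeg ℚ (F q) + (K : Cardinal) ≤
        ((1 + Nat.totient q / 2 : ℕ) : Cardinal))}.ncard : ℝ) / N)) atTop (𝓝 0) := by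
  intro K
  rw [Metric.tendsto_atTop]
  intro ε hε
  obtain ⟨N₀, hN₀⟩ := (Helper12.LR.up_main (K + 1) (ε / 4) (by linarith)).union
    (⟨⌈3 / (ε / 4)⌉₊, fun N hN => by
      have h1 : ({q : ℕ | q ≤ 2} ∩ Set.Iio N).ncard ≤ 3 := by
        refine (Set.ncard_le_ncard (t := ((Finset.range 3 : Finset ℕ) : Set ℕ)) ?_
          (Finset.finite_toSet _)).trans (by rw [Set.ncard_coe_finset]; simp)
        intro x hx
        have : x ≤ 2 := hx.1
        simp only [Finset.coe_range, Set.mem_Iio]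
        omega
      have h2 : (3 : ℝ) / (ε / 4) ≤ N := (Nat.le_ceil _).trans (by exact_mod_cast hN)
      rw [div_le_iff₀ (by linarith)] at h2
      have h3 : ((({q : ℕ | q ≤ 2} ∩ Set.Iio N).ncard : ℕ) : ℝ) ≤ 3 := by exact_mod_cast h1
      linarith⟩ : Helper12.LR.Up {q : ℕ | q ≤ 2} (ε / 4))
  refine ⟨max N₀ 1, fun N hN => ?_⟩
  have hNN : N₀ ≤ N := le_trans (le_max_left _ _) hN
  have hN1 : 1 ≤ N := le_trans (le_max_right _ _) hN
  have hpos : (0 : ℝ) < N := by exact_mod_cast hN1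
  have h1 := hN₀ N hNN
  rw [Real.dist_eq, sub_zero, abs_of_nonneg (by positivity), div_lt_iff₀ hpos]
  have h2 : {q : ℕ | q < N ∧ ¬ (Algebra.trdeg ℚ (F q) + (K : Cardinal) ≤
        ((1 + Nat.totient q / 2 : ℕ) : Cardinal))}.ncard ≤
      (({q | ¬ ∃ p : ℕ, p.Prime ∧ p ∣ q ∧ ∃ T : Finset ℕ, T.card = K + 1 + 1 ∧
      ∀ l ∈ T, l.Prime ∧ (l : ZMod (8 * p)) = -1 ∧ l ∣ q} ∪ {q : ℕ | q ≤ 2}) ∩
        Set.Iio N).ncard := by
    refine Set.ncard_le_ncard ?_ (Helper12.LR.fin_inter _ _)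
    rintro q ⟨hq1, hq2⟩
    refine ⟨?_, hq1⟩
    by_contra hcon
    rw [Set.mem_union, not_or] at hcon
    obtain ⟨hc1, hc2⟩ := hcon
    rw [Set.mem_ofPred_eq, not_not] at hc1
    rw [Set.mem_ofPred_eq] at hc2
    obtain ⟨p, hp, hpq, T, hT, hT2⟩ := hc1
    exact hq2 (Helper12.LR.trdeg_add_le K q (by omega) hp hpq T hT hT2)
  have h3 : (({q : ℕ | q < N ∧ ¬ (Algebra.trdeg ℚ (F q) + (K : Cardinal) ≤
        ((1 + Nat.totient q / 2 : ℕ) : Cardinal))}.ncard : ℕ) : ℝ) ≤ (ε / 4 + ε / 4) * N :=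
    le_trans (by exact_mod_cast h2) h1
  nlinarith

end Pool.Agent.Results.MP_274814_nt.AlmostAllLevels
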